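import Pool.Agent.Y641.KZ.Alg
import Pool.Agent.Y496.KC.Exp
import Pool.Agent.Y192.KC.SStm

/-!
Zariski dense entire curves make the characters constant (helper961, job KS6 of helper192; the
conversion to curves on the exterior of a disc follows `Pool.Agent.Y641.KZ.t_zdisc` of helper641).
-/

set_option autoImplicit false

namespace Pool.Agent.Y961.KS

open MvPolynomial Metric Filter Topology Pool.Agent.Y192.OG Pool.Agent.Y192.KC
open Pool.Agent.W603.BP Pool.Agent.Y641.KZ Pool.Agent.Y496.KC

theorem val_zero {n : ℕ} (c : Curve n) (z : ℂ) : c.val 0 z = 0 := by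
  have := c.val_smul 0 (0 : c.Mr) z
  rwa [zero_smul, zero_mul] at this

section curve

variable {n : ℕ}

theorem an_u {u : ℂ → Fin (n + 1) → ℂ} (hu : Differentiable ℂ u) (i : Fin (n + 1)) (z : ℂ) :
    AnalyticAt ℂ (fun y => u y i) z :=
  ((differentiable_pi.mp hu) i).analyticAt z

theorem an_exp {u : ℂ → Fin (n + 1) → ℂ} (hu : Differentiable ℂ u) (i : Fin (n + 1)) (z : ℂ) :
    AnalyticAt ℂ (fun y => u (Complex.exp y) i) z :=
  Differentiable.analyticAt (((differentiable_pi.mp hu) i).comp Complex.differentiable_exp) z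

/-- the curve of the `m`-th powers of the coordinates, at the exponential function -/
noncomputable def cv (m : ℕ) {u : ℂ → Fin (n + 1) → ℂ} (hu : Differentiable ℂ u) (hm : 0 < m)
    (hne : ∀ z, u z ≠ 0) {p : ℂ} (hp : p ∈ Ext 1) (hp1 : ∀ i, u (Complex.exp p) i ≠ 0) :
    Curve n where
  r0 := 1
  X := fun i z => u (Complex.exp z) i ^ m
  hr0 := le_rfl
  an := fun i z _ => (an_exp hu i z).fun_pow m
  ncz := by
    intro z _
    by_contra hcon
    push Not at hcon
    exact hne (Complex.exp z) (funext fun i => (pow_eq_zero_iff hm.ne').mp (hcon i))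
  nz := fun i => ⟨p, hp, pow_ne_zero _ (hp1 i)⟩

end curve

theorem t_dconst : St_dconst := by
  classical
  intro n r X K _ _ x m0 m G0 Γ hx hG0 hcurves hm0 hm he L _ _ t w hF hD γ hγ
  obtain ⟨u, v, hu, hv, hmem, hdense⟩ := hD
  obtain ⟨kG, bG, PG, hPG, hPGl⟩ := form G0
  have hPGI : PG ∉ X.I := by
    intro h
    exact hG0 ((form_ep x hPGl).mp ((hx PG kG hPG).mpr h))
  set P : MvPolynomial (Fin (n + 1)) ℂ := (∏ i, MvPolynomial.X i) * PG with hPdef
  have hP : P.IsHomogeneous ((∑ _i : Fin (n + 1), 1) + kG) :=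
    (IsHomogeneous.prod _ _ _ fun i _ => isHomogeneous_X ℂ i).mul hPG
  have hPI : P ∉ X.I := by
    intro h
    rcases X.prime.mem_or_mem h with h1 | h1
    · obtain ⟨i, -, hi⟩ := (X.prime.prod_mem_iff).mp h1
      exact X.hX i hi
    · exact hPGI h1
  have hne : ∀ z, u z ≠ 0 := fun z => (hmem z).1
  -- a good point
  have hcont : ∀ Q : MvPolynomial (Fin (n + 1)) ℂ,
      Continuous fun y => eval (fun i => u y i ^ m) Q := by
    intro Q
    refine (MvPolynomial.continuous_eval Q).comp (continuous_pi fun i => ?_)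
    exact ((continuous_apply i).comp hu.continuous).pow m
  obtain ⟨y0, hy0⟩ : ∃ y0, eval (fun i => u y0 i ^ m) P ≠ 0 := by
    by_contra hcon
    push Not at hcon
    have h1 := hdense (sb r m P) _ (wh_sb X.toCov m hP) (fun z => by rw [eval_sb]; exact hcon z)
    rw [aeval_sb] at h1
    exact hPI ((hF.van P _ hP).mp h1)
  obtain ⟨y1, hy1n, hy1⟩ : ∃ y1 : ℂ, y1 ≠ 0 ∧ eval (fun i => u y1 i ^ m) P ≠ 0 := by
    obtain ⟨z2, h2, h3⟩ := dense_ne.inter_open_nonempty _
      (isOpen_ne_fun (hcont P) continuous_const) ⟨y0, hy0⟩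
    exact ⟨z2, h3, h2⟩
  obtain ⟨p, hpE, hpy⟩ : ∃ p : ℂ, p ∈ Ext 1 ∧ Complex.exp p = y1 := by
    have h1 : ∀ᶠ k in atTop, zk (Complex.log y1) k ∈ ball (0 : ℂ) 1 :=
      (zk_tendsto _).eventually (ball_mem_nhds _ one_pos)
    obtain ⟨k, hk1, hk2⟩ := (h1.and (zk_ev_ne (Complex.log y1))).exists
    refine ⟨(zk (Complex.log y1) k)⁻¹, ?_, by rw [exp_zk, Complex.exp_log hy1n]⟩
    change 1 < ‖(zk (Complex.log y1) k)⁻¹‖
    rw [norm_inv]
    rw [mem_ball_zero_iff] at hk1
    exact (one_lt_inv₀ (norm_pos_iff.mpr hk2)).mpr hk1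
  rw [hPdef, map_mul, map_prod, ← hpy] at hy1
  have hp1 : ∀ i, u (Complex.exp p) i ≠ 0 := by
    intro i h0
    have h1 := Finset.prod_ne_zero_iff.mp (left_ne_zero_of_mul hy1) i (Finset.mem_univ i)
    rw [eval_X, h0, zero_pow hm.ne'] at h1
    exact h1 rfl
  have hp2 := right_ne_zero_of_mul hy1
  set c : Curve n := cv m hu hm hne hpE hp1 with hc
  have hr0 : c.r0 = 1 := rfl
  have hcX : ∀ i z, c.X i z = u (Complex.exp z) i ^ m := fun i z => rfl
  have hpU : p ∈ c.U := ⟨hpE, fun i => by
    rw [hcX]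
    exact pow_ne_zero _ (hp1 i)⟩
  have hval : ∀ (g : Lau n) (z : ℂ), z ∈ c.U →
      c.val (c.ev g) z = lev g (tor fun i => u (Complex.exp z) i ^ m) := by
    intro g z hz
    rw [val_ev c g hz]
    rfl
  -- the kernel
  have hker : ∀ g, ep x g = 0 → c.ev g = 0 := by
    intro g hg
    obtain ⟨k, b, Q, hQ, hQl⟩ := form g
    have hQI : Q ∈ X.I := (hx Q k hQ).mp ((form_ep x hQl).mpr hg)
    apply c.val_inj
    intro z hz
    rw [hval g z hz, val_zero]
    exact (form_eval hQ hQl fun i => hz.2 i).mp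
      ((pt_pow he hF (hmem _)).1 Q k hQ hQI)
  have hG : c.ev G0 ≠ 0 := by
    intro h0
    have h1 := hval G0 p hpU
    rw [h0, val_zero] at h1
    exact hp2 ((form_eval hPG hPGl fun i => pow_ne_zero _ (hp1 i)).mpr h1.symm)
  -- analytic functions
  have hui : ∀ i z, AnalyticAt ℂ (fun y => u (Complex.exp y) i) z := fun i z => an_exp hu i z
  have hvj : ∀ j z, AnalyticAt ℂ (fun y => v (Complex.exp y) j) z := fun j z =>
    Differentiable.analyticAt (((differentiable_pi.mp hv) j).comp Complex.differentiable_exp) z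
  have ho0 : ∀ z ∈ Ext 1, ∃ a : ℤ, meromorphicOrderAt (fun y => u (Complex.exp y) 0) z = a := by
    intro z hz
    have h1 : meromorphicOrderAt (fun y => u (Complex.exp y) 0) z ≠ ⊤ := by
      rw [meromorphicOrderAt_ne_top_iff_eventually_ne_zero (hui 0 z).meromorphicAt]
      filter_upwards [c.X_punct 0 hz] with y hy h0
      apply hy
      rw [hcX, h0, zero_pow hm.ne']
    exact ⟨_, (WithTop.coe_untop _ h1).symm⟩
  have hord : ∀ (f : MvPolynomial (Fin (n + 1)) ℂ) (k : ℕ), f.IsHomogeneous k → ∀ z ∈ Ext 1,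
      ∀ a : ℤ, meromorphicOrderAt (fun y => u (Complex.exp y) 0) z = a →
      c.ord z (c.ev (laur f)) = meromorphicOrderAt (fun y => eval (fun i => u (Complex.exp y) i ^ m) f) z
        - ((m * k : ℕ) : ℤ) * a := by
    intro f k hf z hz a ha
    have h1 : c.val (c.ev (laur f)) =ᶠ[𝓝[≠] z]
        fun y => eval (fun i => u (Complex.exp y) i ^ m) f / u (Complex.exp y) 0 ^ (m * k) := by
      filter_upwards [c.U_punct hz] with y hy
      rw [hval _ y hy, lev_laur (v := fun i => u (Complex.exp y) i ^ m) hf fun i => hy.2 i, ← pow_mul]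
    have h2 : MeromorphicAt (fun y => eval (fun i => u (Complex.exp y) i ^ m) f) z := by
      apply AnalyticAt.meromorphicAt
      have h3 : (fun y => eval (fun i => u (Complex.exp y) i ^ m) f)
          = fun y => aeval (fun i => u (Complex.exp y) i ^ m) f := by
        funext y
        rw [aeval_eval]
      rw [h3]
      exact AnalyticAt.aeval_mvPolynomial (fun i => (hui i z).fun_pow m) f
    unfold Curve.ord
    rw [meromorphicOrderAt_congr h1, fun_meromorphicOrderAt_div h2
      ((hui 0 z).meromorphicAt.fun_pow _), fun_meromorphicOrderAt_pow (hui 0 z).meromorphicAt,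
      ha]
    rfl
  have hadm : AdmG X.FL X.eL m c := by
    refine ⟨fun i z hz => ?_, fun j => ?_⟩
    · have h1 : analyticOrderAt (c.X i) z = m • analyticOrderAt (fun y => u (Complex.exp y) i) z :=
        analyticOrderAt_pow (hui i z) m
      unfold Curve.oX
      rw [h1]
      have h2 : (m • analyticOrderAt (fun y => u (Complex.exp y) i) z).toNat
          = m * (analyticOrderAt (fun y => u (Complex.exp y) i) z).toNat := by
        rw [nsmul_eq_mul, ENat.toNat_mul, ENat.toNat_natCast]
      rw [h2]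
      exact ⟨_, by push_cast; rfl⟩
    · refine Fin.cases ?_ (fun j => ?_) j
      · intro _ z hz
        have hz1 : z ∈ Ext 1 := hz
        obtain ⟨a, ha⟩ := ho0 z hz1
        have h1 : c.ord z (c.ev (X.FL 0)) = _ := hord X.G X.q X.hG z hz1 a ha
        have h2 : meromorphicOrderAt (fun y => eval (fun i => u (Complex.exp y) i ^ m) X.G) z = 0 := by
          have h4 : AnalyticAt ℂ (fun y => eval (fun i => u (Complex.exp y) i ^ m) X.G) z := by
            have h3 : (fun y => eval (fun i => u (Complex.exp y) i ^ m) X.G)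
                = fun y => aeval (fun i => u (Complex.exp y) i ^ m) X.G := by
              funext y
              rw [aeval_eval]
            rw [h3]
            exact AnalyticAt.aeval_mvPolynomial (fun i => (hui i z).fun_pow m) X.G
          rw [h4.meromorphicOrderAt_eq, h4.analyticOrderAt_eq_zero.mpr (hmem _).2.2]
          rfl
        refine ⟨-(X.q * a), ?_⟩
        rw [h1, h2]
        have h5 : md m (X.eL 0) = m := if_pos rfl
        rw [h5, ← WithTop.coe_zero]
        rw [← WithTop.coe_mul, ← WithTop.LinearOrderedAddCommGroup.coe_sub]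
        congr 1
        push_cast
        ring
      · intro hj z hz
        have hz1 : z ∈ Ext 1 := hz
        obtain ⟨a, ha⟩ := ho0 z hz1
        have h1 : c.ord z (c.ev (X.FL j.succ)) = _ := hord (X.F j) (X.d j) (X.hF j) z hz1 a ha
        have h2 : (fun y => eval (fun i => u (Complex.exp y) i ^ m) (X.F j)) =ᶠ[𝓝[≠] z]
            fun y => v (Complex.exp y) j ^ X.e j :=
          Filter.Eventually.of_forall fun y => ((pt_pow he hF (hmem _)).2 j).symm
        rw [meromorphicOrderAt_congr h2, fun_meromorphicOrderAt_pow (hvj j z).meromorphicAt] at h1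
        have h3 : meromorphicOrderAt (fun y => v (Complex.exp y) j) z ≠ ⊤ := by
          intro h4
          apply hj
          have h5 : ∀ y ∈ Ext 1, v (Complex.exp y) j = 0 := by
            have h6 : AnalyticOnNhd ℂ (fun y => v (Complex.exp y) j) (Ext 1) := fun y _ => hvj j y
            rw [meromorphicOrderAt_eq_top_iff] at h4
            exact h6.eqOn_zero_of_preconnected_of_frequently_eq_zero (Ext_preconn one_pos) hz1
              h4.frequently
          apply c.val_inj
          intro y hy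
          have h7 : c.val (c.ev (X.FL j.succ)) y = _ := hval (laur (X.F j)) y hy
          rw [h7, val_zero, lev_laur (v := fun i => u (Complex.exp y) i ^ m) (X.hF j) fun i => hy.2 i,
            ← (pt_pow he hF (hmem _)).2 j, h5 y hy.1, zero_pow (X.he j).ne', zero_div]
        obtain ⟨b, hb⟩ := WithTop.ne_top_iff_exists.mp h3
        have h5 : md m (X.eL j.succ) = X.e j := if_neg (X.he j).ne'
        obtain ⟨q, hq⟩ := he j
        refine ⟨b - q * X.d j * a, ?_⟩
        rw [h1, ← hb, h5]
        have h6 : ((X.e j : ℕ) : WithTop ℤ) = (((X.e j : ℕ) : ℤ) : WithTop ℤ) := rfl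
        rw [h6, ← WithTop.coe_mul, ← WithTop.coe_mul,
          ← WithTop.LinearOrderedAddCommGroup.coe_sub]
        congr 1
        rw [hq]
        push_cast
        ring
  obtain ⟨S, hS, R0, hR⟩ : MInf c γ := by
    refine hcurves m hm0 (fun j => ?_) c hadm hker hG γ hγ
    refine Fin.cases (fun h => absurd rfl h) (fun j _ => he j) j
  -- the monomial at points with the same exponential
  have hmon : ∀ z, c.monf γ z = ∏ i, tor (fun i => u (Complex.exp z) i ^ m) i ^ γ i := fun z => rfl
  have hseq : ∀ a : ℂ, (∀ i, u (Complex.exp a) i ≠ 0) → ∀ᶠ k in atTop,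
      S (zk a k)⁻¹ = ∏ i, tor (fun i => u (Complex.exp a) i ^ m) i ^ γ i := by
    intro a ha
    have h1 : ∀ᶠ k in atTop, zk a k ∈ ball (0 : ℂ) (max R0 1)⁻¹ :=
      (zk_tendsto _).eventually
        (ball_mem_nhds _ (inv_pos.mpr (lt_of_lt_of_le one_pos (le_max_right _ _))))
    filter_upwards [h1, zk_ev_ne a] with k hk1 hk2
    have h2 : max R0 1 < ‖(zk a k)⁻¹‖ := by
      rw [norm_inv]
      rw [mem_ball_zero_iff] at hk1
      exact (lt_inv_comm₀ (norm_pos_iff.mpr hk2) (lt_of_lt_of_le one_pos (le_max_right _ _))).mp hk1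
    have h3 : (zk a k)⁻¹ ∈ c.U := by
      refine ⟨lt_of_le_of_lt (le_max_right _ _) h2, fun i => ?_⟩
      rw [hcX, exp_zk]
      exact pow_ne_zero _ (ha i)
    have h4 := hR _ h3 (lt_of_le_of_lt (le_max_left _ _) h2)
    rw [← h4, hmon, exp_zk]
  have hzk : ∀ a : ℂ, Tendsto (zk a) atTop (𝓝[≠] 0) := fun a =>
    tendsto_nhdsWithin_iff.mpr ⟨zk_tendsto a, zk_ev_ne a⟩
  set c0 : ℂ := ∏ i, tor (fun i => u (Complex.exp p) i ^ m) i ^ γ i with hc0
  have hT : ∀ᶠ w in 𝓝[≠] (0 : ℂ), S w⁻¹ - c0 = 0 := by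
    rcases (hS.fun_sub (MeromorphicAt.const c0 0)).eventually_eq_zero_or_eventually_ne_zero
      with h | h
    · exact h
    · exfalso
      obtain ⟨k, h1, h2⟩ := (((hzk p).eventually h).and (hseq p hp1)).exists
      exact h1 (sub_eq_zero.mpr h2)
  have hconst : ∀ y : ℂ, y ≠ 0 → (∀ i, u y i ≠ 0) →
      ∏ i, tor (fun i => u y i ^ m) i ^ γ i = c0 := by
    intro y hy hyi
    have h0 : Complex.exp (Complex.log y) = y := Complex.exp_log hy
    have h1 := hseq (Complex.log y) (by rw [h0]; exact hyi)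
    rw [h0] at h1
    obtain ⟨k, h2, h3⟩ := (((hzk (Complex.log y)).eventually hT).and h1).exists
    rw [← h3]
    exact sub_eq_zero.mp h2
  -- the relation
  set g : Lau n := AddMonoidAlgebra.single γ 1 - AddMonoidAlgebra.single 0 c0 with hg
  obtain ⟨k, b, Q, hQ, hQl⟩ := form g
  have hlev : ∀ v' : Fin n → ℂ, lev g v' = ∏ i, v' i ^ γ i - c0 := by
    intro v'
    have h1 : lev (g + AddMonoidAlgebra.single 0 c0) v' = lev (AddMonoidAlgebra.single γ 1) v' := by
      rw [hg, sub_add_cancel]
    rw [lev_add, lev_single, lev_single] at h1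
    simp only [Pi.zero_apply, zpow_zero, Finset.prod_const_one, mul_one, one_mul] at h1
    rw [← h1, add_sub_cancel_right]
  have hQ0 : ∀ y, eval (fun i => u y i ^ m) Q = 0 := by
    intro y
    have hpun : ∀ᶠ y' in 𝓝[≠] y, ∀ i, u y' i ≠ 0 := by
      rw [Filter.eventually_all]
      intro i
      rcases (an_u hu i y).eventually_eq_zero_or_eventually_ne_zero with h | h
      · exfalso
        have h6 : AnalyticOnNhd ℂ (fun y => u y i) Set.univ := fun y _ => an_u hu i y
        have h7 := h6.eqOn_zero_of_preconnected_of_eventuallyEq_zero isPreconnected_univ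
          (Set.mem_univ y) h
        exact hp1 i (h7 (Set.mem_univ _))
      · exact h
    have hpun0 : ∀ᶠ y' in 𝓝[≠] y, y' ≠ 0 := by
      by_cases hy : y = 0
      · rw [hy]
        exact self_mem_nhdsWithin
      · exact nhdsWithin_le_nhds (isOpen_ne.mem_nhds hy)
    have h1 : Tendsto (fun y => eval (fun i => u y i ^ m) Q) (𝓝[≠] y)
        (𝓝 (eval (fun i => u y i ^ m) Q)) :=
      (hcont Q).continuousAt.tendsto.mono_left nhdsWithin_le_nhds
    refine tendsto_nhds_unique (h1.congr' ?_) tendsto_const_nhds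
    filter_upwards [hpun, hpun0] with y' h2 h3
    rw [form_eval hQ hQl fun i => pow_ne_zero _ (h2 i), hlev]
    rw [hconst y' h3 h2, sub_self]
  have h1 := hdense (sb r m Q) _ (wh_sb X.toCov m hQ) (fun z => by rw [eval_sb]; exact hQ0 z)
  rw [aeval_sb] at h1
  have h2 := (form_ep x hQl).mp ((hx Q k hQ).mpr ((hF.van Q k hQ).mp h1))
  rw [hg, map_sub, ep_single, ep_single, sub_eq_zero, one_smul, xm_zero, Units.val_one] at h2
  exact ⟨c0, by rw [h2, Algebra.algebraMap_eq_smul_one]⟩

end Pool.Agent.Y961.KS
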